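import Mathlib
import Pool.Agent.Lib.MP_2254b5_lc.Fin3

/-!
# Oblivious symmetric alternation versus Arthur-Merlin: relativizations

Definitions in `Lib/MP_2254b5_lc/Defs.lean`, `Defs2.lean` and `Defs3.lean`. Programs are structured
programs on stacks of bits with an oracle instruction; `Out A P T x y z v`: with the oracle `A` the
program `P` halts on the input words `x, y, z` within `T` steps with output bit `v`. `InP A L`,
`InNP A L`, `InCoNP A L`, `InPpoly A L`, `InO2 A L`, `InAM A L`, `InMIP A L`: the language `L` is in
the class `P`, `NP`, `coNP`, `P/poly`, `O_2^p`, `AM`, `MIP` relative to `A`; `InAMt A L T m`: `L` has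
an Arthur-Merlin protocol of time `T n` whose coin word and reply have length `m n`, relative to
`A`; `InMIPt A L T m`: the same, but the verifier may also ask the provers, whose strategy is an
arbitrary oracle fixed before the coins are tossed (the oracle form of multi-prover interactive
proofs). The unrelativized classes are those for the empty oracle.
-/

namespace Pool.Agent.Results.MP_2254b5_lc.Relativizations

open Pool.Agent.Lib.MP_2254b5_lc

/-- (1) For every countable set `M` of functions there is an oracle `A` with `NP ⊆ P/poly` relative
to `A` and a tally language in `coNP` and in `O_2^p` relative to `A` which is neither in `AM` nor in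
`MIP` relative to `A`, and which has no Arthur-Merlin protocol and no multi-prover interactive proof
relative to `A` with coins and reply of length `m n`, `m` in `M`, and any running time `T n` with
`2 * T n < 2 ^ n` for all large `n`. (2) There is an oracle `B` relative to which `O_2^p` is
contained in `P` and in `AM`. -/
theorem result :
    (∀ M : Set (ℕ → ℕ), M.Countable → ∃ A : Orc, (∀ L : Set Word, InNP A L → InPpoly A L) ∧
      ∃ L : Set Word, Tally L ∧ InCoNP A L ∧ InO2 A L ∧ ¬ InAM A L ∧ ¬ InMIP A L ∧
        ∀ T m : ℕ → ℕ, m ∈ M → (∀ᶠ n in Filter.atTop, 2 * T n < 2 ^ n) →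
          ¬ InAMt A L T m ∧ ¬ InMIPt A L T m) ∧
    ∃ B : Orc, ∀ L : Set Word, InO2 B L → InP B L ∧ InAM B L :=
  main3

end Pool.Agent.Results.MP_2254b5_lc.Relativizations
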